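import Pool.Agent.Lib.MP_dae7ec_co.Count

set_option autoImplicit false

namespace Pool.Agent.Results.MP_dae7ec_co.DensityOfTilingFiveSets

/-- isometries of the integer lattice: distance-preserving bijections (squared Euclidean
distances) -/
def IsLatticeIsometry (g : ℤ × ℤ → ℤ × ℤ) : Prop :=
  Function.Bijective g ∧
    ∀ p q : ℤ × ℤ, ((g p).1 - (g q).1) ^ 2 + ((g p).2 - (g q).2) ^ 2
      = (p.1 - q.1) ^ 2 + (p.2 - q.2) ^ 2

/-- `S` tiles the region `R`: some family of images of `S` under isometries of the lattice is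
pairwise disjoint with union `R`. -/
def Tiles (S R : Set (ℤ × ℤ)) : Prop :=
  ∃ (I : Type) (g : I → ℤ × ℤ → ℤ × ℤ),
    (∀ i, IsLatticeIsometry (g i)) ∧
    (∀ i j, i ≠ j → Disjoint (g i '' S) (g j '' S)) ∧
    (⋃ i, g i '' S) = R

open Pool.Agent.Lib.MP_dae7ec_co in
/-- from a tiling of the Gaussian integers by rotated copies to a tiling of `ℤ × ℤ` -/
theorem tiles_of_rotTiles (S : Finset GaussianInt) (h : RotTiles S) (A : Set (ℤ × ℤ))
    (hA : A = (fun z : GaussianInt => ((z.re, z.im) : ℤ × ℤ)) '' (S : Set GaussianInt)) :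
    Tiles A Set.univ := by
  classical
  obtain ⟨P, hP⟩ := h
  -- exactly one
  have huniq : ∀ w : GaussianInt, ∃! q : Fin 4 × GaussianInt,
      q.2 ∈ S ∧ P q.1 (w - rot q.1 * q.2) = true := by
    intro w
    have h1 : ∑ q ∈ (Finset.univ : Finset (Fin 4)) ×ˢ S, (P q.1 (w - rot q.1 * q.2)).toNat = 1 := by
      rw [Finset.sum_product]
      exact hP w
    have h2 : (((Finset.univ : Finset (Fin 4)) ×ˢ S).filter
        fun q => P q.1 (w - rot q.1 * q.2) = true).card = 1 := by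
      rw [Finset.card_filter]
      refine Eq.trans ?_ h1
      refine Finset.sum_congr rfl fun q _ => ?_
      cases P q.1 (w - rot q.1 * q.2) <;> rfl
    obtain ⟨q, hq⟩ := Finset.card_eq_one.mp h2
    have hmem : ∀ q', (q'.2 ∈ S ∧ P q'.1 (w - rot q'.1 * q'.2) = true) ↔ q' = q := by
      intro q'
      have h3 : q' ∈ ({q} : Finset (Fin 4 × GaussianInt)) ↔ q' = q := Finset.mem_singleton
      rw [← h3, ← hq]
      simp
    exact ⟨q, (hmem q).mpr rfl, fun q' hq' => (hmem q').mp hq'⟩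
  let F : Fin 4 → GaussianInt → ℤ × ℤ → ℤ × ℤ := fun k b p =>
    ((rot k * ⟨p.1, p.2⟩ + b).re, (rot k * ⟨p.1, p.2⟩ + b).im)
  have hrot : ∀ k : Fin 4, rot k = 1 ∨ rot k = ⟨0, 1⟩ ∨ rot k = -1 ∨ rot k = ⟨0, -1⟩ := by
    intro k
    fin_cases k
    · exact Or.inl rot_zero
    · exact Or.inr (Or.inl rot_one)
    · exact Or.inr (Or.inr (Or.inl rot_two))
    · exact Or.inr (Or.inr (Or.inr rot_three))
  have hF : ∀ k b, IsLatticeIsometry (F k b) := by
    intro k b
    have hd : ∀ p q : ℤ × ℤ, ((F k b p).1 - (F k b q).1) ^ 2 + ((F k b p).2 - (F k b q).2) ^ 2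
        = (p.1 - q.1) ^ 2 + (p.2 - q.2) ^ 2 := by
      intro p q
      simp only [F, Zsqrtd.re_add, Zsqrtd.im_add, Zsqrtd.re_mul, Zsqrtd.im_mul]
      rcases hrot k with h | h | h | h <;> rw [h] <;> simp <;> ring
    refine ⟨⟨?_, ?_⟩, hd⟩
    · intro p q hpq
      have := hd p q
      rw [hpq] at this
      simp only [sub_self] at this
      have h1 := sq_nonneg (p.1 - q.1)
      have h2 := sq_nonneg (p.2 - q.2)
      have h3 : (p.1 - q.1) ^ 2 = 0 := by omega
      have h4 : (p.2 - q.2) ^ 2 = 0 := by omega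
      have h5 := pow_eq_zero_iff (two_ne_zero) |>.mp h3
      have h6 := pow_eq_zero_iff (two_ne_zero) |>.mp h4
      exact Prod.ext (by omega) (by omega)
    · rintro ⟨x, y⟩
      simp only [F, Zsqrtd.re_add, Zsqrtd.im_add, Zsqrtd.re_mul, Zsqrtd.im_mul]
      rcases hrot k with h | h | h | h <;> rw [h]
      · exact ⟨(x - b.re, y - b.im), by simp⟩
      · exact ⟨(y - b.im, -(x - b.re)), by simp⟩
      · exact ⟨(-(x - b.re), -(y - b.im)), by simp⟩
      · exact ⟨(-(y - b.im), x - b.re), by simp⟩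
  refine ⟨{q : Fin 4 × GaussianInt // P q.1 q.2 = true}, fun q => F q.1.1 q.1.2,
    fun q => hF _ _, ?_, ?_⟩
  · rintro ⟨⟨k, b⟩, hkb⟩ ⟨⟨k', b'⟩, hkb'⟩ hne
    rw [Set.disjoint_left]
    rintro w ⟨p, hp, hpw⟩ ⟨p', hp', hpw'⟩
    rw [hA] at hp hp'
    obtain ⟨s, hs, rfl⟩ := hp
    obtain ⟨s', hs', rfl⟩ := hp'
    simp only [F] at hpw hpw' hkb hkb'
    have e1 : rot k * s + b = ⟨w.1, w.2⟩ := by
      rw [← hpw]
    have e2 : rot k' * s' + b' = ⟨w.1, w.2⟩ := by
      rw [← hpw']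
    obtain ⟨q, -, hq⟩ := huniq ⟨w.1, w.2⟩
    have h1 := hq (k, s) ⟨hs, by rw [← e1]; simpa using hkb⟩
    have h2 := hq (k', s') ⟨hs', by rw [← e2]; simpa using hkb'⟩
    have h3 : k = k' := by
      have := h1.trans h2.symm
      exact (Prod.mk.inj this).1
    have h4 : s = s' := by
      have := h1.trans h2.symm
      exact (Prod.mk.inj this).2
    subst h3 h4
    apply hne
    have : b = b' := by
      have := e1.trans e2.symm
      exact add_left_cancel this
    rw [Subtype.mk.injEq, this]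
  · rw [Set.eq_univ_iff_forall]
    rintro ⟨x, y⟩
    obtain ⟨q, ⟨hq1, hq2⟩, -⟩ := huniq ⟨x, y⟩
    rw [Set.mem_iUnion]
    refine ⟨⟨(q.1, ⟨x, y⟩ - rot q.1 * q.2), hq2⟩, ?_⟩
    refine ⟨(q.2.re, q.2.im), ?_, ?_⟩
    · rw [hA]
      exact ⟨q.2, hq1, rfl⟩
    · simp only [F]
      rw [show rot q.1 * (⟨q.2.re, q.2.im⟩ : GaussianInt) + (⟨x, y⟩ - rot q.1 * q.2)
        = (⟨x, y⟩ : GaussianInt) by
          rw [show (⟨q.2.re, q.2.im⟩ : GaussianInt) = q.2 from rfl]; ring]

/-- the square box of the lattice points with both coordinates in `0, ..., n - 1` -/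
noncomputable def box (n : ℕ) : Finset (ℤ × ℤ) :=
  Finset.Ico (0 : ℤ) n ×ˢ Finset.Ico (0 : ℤ) n

theorem card_box (n : ℕ) : (box n).card = n ^ 2 := by
  unfold box
  rw [Finset.card_product, Int.card_Ico, sub_zero, Int.toNat_natCast, sq]

open Pool.Agent.Lib.MP_dae7ec_co in
theorem tiles_of_pm (g : Fin 5 → ℤ × ℤ) (hg : Function.Injective g)
    (h : PmTiles fun j => (⟨(g j).1, (g j).2⟩ : GaussianInt)) :
    Tiles ((Finset.univ.image g : Finset (ℤ × ℤ)) : Set (ℤ × ℤ)) Set.univ := by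
  classical
  have hinj : Function.Injective (fun j => (⟨(g j).1, (g j).2⟩ : GaussianInt)) := by
    intro i j hij
    apply hg
    have h1 := congrArg Zsqrtd.re hij
    have h2 := congrArg Zsqrtd.im hij
    exact Prod.ext h1 h2
  refine tiles_of_rotTiles _ (h.rotTiles hinj) _ ?_
  ext p
  simp only [Finset.coe_image, Finset.coe_univ, Set.image_univ, Set.mem_range, Set.mem_image,
    exists_exists_eq_and, Prod.mk.eta]

open Pool.Agent.Lib.MP_dae7ec_co in
open Classical in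
theorem card_nonTiling (n : ℕ) :
    120 * (((box n).powersetCard 5).filter
      fun S : Finset (ℤ × ℤ) => ¬ Tiles (S : Set (ℤ × ℤ)) Set.univ).card
      ≤ 25 * 11041 * (n / 5 + 1) ^ 10 + 90 * n ^ 9 := by
  set 𝒮 := ((box n).powersetCard 5).filter fun S : Finset (ℤ × ℤ) => ¬ Tiles (S : Set (ℤ × ℤ)) Set.univ with h𝒮
  have hex : ∀ S : Finset (ℤ × ℤ), S.card = 5 →
      ∃ g : Fin 5 → ℤ × ℤ, Function.Injective g ∧ Finset.univ.image g = S := by
    intro S hS
    let e := S.equivFinOfCardEq hS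
    refine ⟨fun j => (e.symm j : ℤ × ℤ), ?_, ?_⟩
    · intro i j hij
      exact e.symm.injective (Subtype.ext hij)
    · ext p
      simp only [Finset.mem_image, Finset.mem_univ, true_and]
      constructor
      · rintro ⟨j, rfl⟩
        exact (e.symm j).2
      · intro hp
        exact ⟨e ⟨p, hp⟩, by simp⟩
  choose! g hg using hex
  set E := (pi10 n).filter fun u => ¬ PmTiles (pts u) with hE
  have hle : (𝒮 ×ˢ (Finset.univ : Finset (Equiv.Perm (Fin 5)))).card ≤ E.card := by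
    refine Finset.card_le_card_of_injOn
      (fun q a => Sum.elim (fun j => (g q.1 (q.2 j)).1) (fun j => (g q.1 (q.2 j)).2) a) ?_ ?_
    · rintro ⟨S, σ⟩ hq
      have hS : S ∈ 𝒮 := (Finset.mem_product.1 (Finset.mem_coe.1 hq)).1
      rw [h𝒮, Finset.mem_filter, Finset.mem_powersetCard] at hS
      obtain ⟨⟨hSb, hSc⟩, hST⟩ := hS
      obtain ⟨hgi, hgS⟩ := hg S hSc
      rw [Finset.mem_coe, hE, Finset.mem_filter]
      constructor
      · rw [pi10, Fintype.mem_piFinset]
        have hmem : ∀ j, g S j ∈ box n := by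
          intro j
          apply hSb
          have h0 : g S j ∈ Finset.univ.image (g S) :=
            Finset.mem_image_of_mem _ (Finset.mem_univ j)
          rwa [hgS] at h0
        rintro (j | j)
        · have := hmem (σ j)
          rw [box, Finset.mem_product] at this
          exact this.1
        · have := hmem (σ j)
          rw [box, Finset.mem_product] at this
          exact this.2
      · intro hpm
        apply hST
        have := tiles_of_pm (fun j => g S (σ j)) (hgi.comp σ.injective) hpm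
        have himg : Finset.univ.image (fun j => g S (σ j)) = S := by
          refine Eq.trans ?_ hgS
          ext p
          simp only [Finset.mem_image, Finset.mem_univ, true_and]
          constructor
          · rintro ⟨j, hj⟩
            exact ⟨σ j, hj⟩
          · rintro ⟨j, hj⟩
            exact ⟨σ.symm j, by rw [Equiv.apply_symm_apply]; exact hj⟩
        rw [himg] at this
        exact this
    · rintro ⟨S, σ⟩ hq ⟨S', σ'⟩ hq' heq
      have hS : S ∈ 𝒮 := (Finset.mem_product.1 (Finset.mem_coe.1 hq)).1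
      have hS' : S' ∈ 𝒮 := (Finset.mem_product.1 (Finset.mem_coe.1 hq')).1
      rw [h𝒮, Finset.mem_filter, Finset.mem_powersetCard] at hS hS'
      obtain ⟨hgi, hgS⟩ := hg S hS.1.2
      obtain ⟨hgi', hgS'⟩ := hg S' hS'.1.2
      have h1 : ∀ j, g S (σ j) = g S' (σ' j) := by
        intro j
        exact Prod.ext (congrFun heq (Sum.inl j)) (congrFun heq (Sum.inr j))
      have h2 : S = S' := by
        rw [← hgS, ← hgS']
        ext p
        simp only [Finset.mem_image, Finset.mem_univ, true_and]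
        constructor
        · rintro ⟨j, hj⟩
          refine ⟨σ' (σ.symm j), ?_⟩
          rw [← h1, Equiv.apply_symm_apply]
          exact hj
        · rintro ⟨j, hj⟩
          refine ⟨σ (σ'.symm j), ?_⟩
          rw [h1, Equiv.apply_symm_apply]
          exact hj
      subst h2
      have h3 : σ = σ' := by
        ext j
        rw [hgi (h1 j)]
      rw [h3]
  rw [Finset.card_product, Finset.card_univ, Fintype.card_perm, Fintype.card_fin] at hle
  have hf : Nat.factorial 5 = 120 := rfl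
  rw [hf, mul_comm] at hle
  refine hle.trans (card_not_pm n E (Finset.filter_subset _ _) ?_)
  intro u hu
  rw [hE, Finset.mem_filter] at hu
  exact hu.2

theorem choose_lower (n : ℕ) (hn : 2 ≤ n) :
    ((n : ℝ) ^ 2 - 4) ^ 5 ≤ 120 * ((n ^ 2).choose 5 : ℝ) := by
  have h4 : 4 ≤ n ^ 2 := by nlinarith
  have h1 : (120 : ℕ) * (n ^ 2).choose 5 = (n ^ 2).descFactorial 5 :=
    (Nat.descFactorial_eq_factorial_mul_choose (n ^ 2) 5).symm
  have h2 : (n ^ 2).descFactorial 5
      = (n ^ 2 - 4) * ((n ^ 2 - 3) * ((n ^ 2 - 2) * ((n ^ 2 - 1) * (n ^ 2)))) := by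
    simp [Nat.descFactorial]
  have h3 : (120 : ℝ) * ((n ^ 2).choose 5 : ℝ)
      = ((n : ℝ) ^ 2 - 4) * (((n : ℝ) ^ 2 - 3) * (((n : ℝ) ^ 2 - 2) * (((n : ℝ) ^ 2 - 1)
        * ((n : ℝ) ^ 2)))) := by
    have : (((120 : ℕ) * (n ^ 2).choose 5 : ℕ) : ℝ) = (((n ^ 2 - 4) * ((n ^ 2 - 3) * ((n ^ 2 - 2)
        * ((n ^ 2 - 1) * (n ^ 2)))) : ℕ) : ℝ) := by rw [h1, h2]
    rw [Nat.cast_mul, Nat.cast_mul, Nat.cast_mul, Nat.cast_mul, Nat.cast_mul,
      Nat.cast_sub h4, Nat.cast_sub (by omega : 3 ≤ n ^ 2), Nat.cast_sub (by omega : 2 ≤ n ^ 2),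
      Nat.cast_sub (by omega : 1 ≤ n ^ 2), Nat.cast_pow] at this
    push_cast at this
    exact this
  rw [h3]
  have hx : (0 : ℝ) ≤ (n : ℝ) ^ 2 - 4 := by
    have : ((4 : ℕ) : ℝ) ≤ ((n ^ 2 : ℕ) : ℝ) := by exact_mod_cast h4
    push_cast at this
    linarith
  set x := (n : ℝ) ^ 2 - 4 with hxdef
  have e0 : (n : ℝ) ^ 2 = x + 4 := by rw [hxdef]; ring
  rw [e0]
  have : x ^ 5 = x * (x * (x * (x * x))) := by ring
  rw [this]
  refine mul_le_mul_of_nonneg_left ?_ hx
  refine mul_le_mul (by linarith) ?_ (by positivity) (by linarith)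
  refine mul_le_mul (by linarith) ?_ (by positivity) (by linarith)
  exact mul_le_mul (by linarith) (by linarith) hx (by linarith)

open Classical in
/-- The proportion of tiling sets among the five-element subsets of the box
`{0, ..., n - 1} ^ 2` is at least `1 - 11041 / 390625 - ε = 0.9717... - ε` for large `n`. -/
theorem result (ε : ℝ) (hε : 0 < ε) : ∃ N : ℕ, ∀ n : ℕ, N ≤ n →
    (1 - 11041 / 390625 - ε) * (((box n).powersetCard 5).card : ℝ) ≤
      ((((box n).powersetCard 5).filter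
        fun S : Finset (ℤ × ℤ) => Tiles (S : Set (ℤ × ℤ)) Set.univ).card : ℝ) := by
  let G : ℝ → ℝ := fun x => 11041 / 390625 * (1 + 5 * x) ^ 10 + 90 * x
    - (11041 / 390625 + ε) * (1 - 4 * x ^ 2) ^ 5
  have hG : Continuous G := by
    show Continuous fun x : ℝ => 11041 / 390625 * (1 + 5 * x) ^ 10 + 90 * x
      - (11041 / 390625 + ε) * (1 - 4 * x ^ 2) ^ 5
    fun_prop
  have hG0 : G 0 < 0 := by
    show 11041 / 390625 * (1 + 5 * (0 : ℝ)) ^ 10 + 90 * 0
      - (11041 / 390625 + ε) * (1 - 4 * (0 : ℝ) ^ 2) ^ 5 < 0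
    norm_num
    linarith
  have hev : ∀ᶠ n : ℕ in Filter.atTop, G ((n : ℝ)⁻¹) < 0 :=
    (hG.tendsto 0 |>.comp tendsto_inv_atTop_nhds_zero_nat).eventually (gt_mem_nhds hG0)
  obtain ⟨N, hN⟩ := Filter.eventually_atTop.1 hev
  refine ⟨max N 2, fun n hn => ?_⟩
  have hn1 := hN n ((le_max_left _ _).trans hn)
  have hn2 : 2 ≤ n := (le_max_right _ _).trans hn
  have hnpos : (0 : ℝ) < n := by
    have : ((2 : ℕ) : ℝ) ≤ (n : ℝ) := by exact_mod_cast hn2
    push_cast at this
    linarith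
  -- the polynomial inequality
  have hpoly : 11041 / 390625 * ((n : ℝ) + 5) ^ 10 + 90 * (n : ℝ) ^ 9
      ≤ (11041 / 390625 + ε) * ((n : ℝ) ^ 2 - 4) ^ 5 := by
    have h1 : (n : ℝ) ^ 10 * G ((n : ℝ)⁻¹) = 11041 / 390625 * ((n : ℝ) + 5) ^ 10
        + 90 * (n : ℝ) ^ 9 - (11041 / 390625 + ε) * ((n : ℝ) ^ 2 - 4) ^ 5 := by
      have e1 : (n : ℝ) ^ 10 * (1 + 5 * (n : ℝ)⁻¹) ^ 10 = ((n : ℝ) + 5) ^ 10 := by
        rw [← mul_pow]
        congr 1
        field_simp
      have e2 : (n : ℝ) ^ 10 * (1 - 4 * (n : ℝ)⁻¹ ^ 2) ^ 5 = ((n : ℝ) ^ 2 - 4) ^ 5 := by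
        have : (n : ℝ) ^ 10 = ((n : ℝ) ^ 2) ^ 5 := by ring
        rw [this, ← mul_pow]
        congr 1
        field_simp
      have e3 : (n : ℝ) ^ 10 * (n : ℝ)⁻¹ = (n : ℝ) ^ 9 := by
        field_simp
      show (n : ℝ) ^ 10 * (11041 / 390625 * (1 + 5 * (n : ℝ)⁻¹) ^ 10 + 90 * (n : ℝ)⁻¹
        - (11041 / 390625 + ε) * (1 - 4 * (n : ℝ)⁻¹ ^ 2) ^ 5) = _
      rw [← e1, ← e2, ← e3]
      ring
    have h2 : (n : ℝ) ^ 10 * G ((n : ℝ)⁻¹) < 0 :=
      mul_neg_of_pos_of_neg (by positivity) hn1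
    linarith
  have hcount := card_nonTiling n
  set T := ((box n).powersetCard 5).card with hT
  set B := (((box n).powersetCard 5).filter
      fun S : Finset (ℤ × ℤ) => ¬ Tiles (S : Set (ℤ × ℤ)) Set.univ).card with hB
  set A := (((box n).powersetCard 5).filter
      fun S : Finset (ℤ × ℤ) => Tiles (S : Set (ℤ × ℤ)) Set.univ).card with hA
  have hAB : A + B = T := Finset.card_filter_add_card_filter_not _
  have hTc : T = (n ^ 2).choose 5 := by
    rw [hT, Finset.card_powersetCard, card_box]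
  have hB' : (120 : ℝ) * B ≤ 11041 / 390625 * ((n : ℝ) + 5) ^ 10 + 90 * (n : ℝ) ^ 9 := by
    have h1 : ((120 * B : ℕ) : ℝ) ≤ ((25 * 11041 * (n / 5 + 1) ^ 10 + 90 * n ^ 9 : ℕ) : ℝ) := by
      exact_mod_cast hcount
    push_cast at h1
    have h2 : ((n / 5 : ℕ) : ℝ) + 1 ≤ ((n : ℝ) + 5) / 5 := by
      have : ((n / 5 : ℕ) : ℝ) ≤ (n : ℝ) / 5 := by
        have := @Nat.cast_div_le ℝ _ _ _ n 5
        simpa using this
      linarith
    have h3 : (((n / 5 : ℕ) : ℝ) + 1) ^ 10 ≤ (((n : ℝ) + 5) / 5) ^ 10 := by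
      gcongr
    have h4 : 25 * 11041 * (((n : ℝ) + 5) / 5) ^ 10 = 11041 / 390625 * ((n : ℝ) + 5) ^ 10 := by
      rw [div_pow]
      ring
    calc (120 : ℝ) * B ≤ 25 * 11041 * (((n / 5 : ℕ) : ℝ) + 1) ^ 10 + 90 * (n : ℝ) ^ 9 := by
          linarith
      _ ≤ 25 * 11041 * (((n : ℝ) + 5) / 5) ^ 10 + 90 * (n : ℝ) ^ 9 := by gcongr
      _ = _ := by rw [h4]
  have hfin : (B : ℝ) ≤ (11041 / 390625 + ε) * T := by
    have h1 := choose_lower n hn2
    rw [← hTc] at h1
    have h2 : (11041 / 390625 + ε) * ((n : ℝ) ^ 2 - 4) ^ 5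
        ≤ (11041 / 390625 + ε) * (120 * (T : ℝ)) := by
      refine mul_le_mul_of_nonneg_left h1 ?_
      positivity
    linarith
  have hABr : (A : ℝ) + B = T := by exact_mod_cast hAB
  linarith

end Pool.Agent.Results.MP_dae7ec_co.DensityOfTilingFiveSets
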