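import Pool.Agent.Lib.MP_dae7ec_co.DegenMain
import Pool.Agent.Lib.MP_dae7ec_co.Line

set_option autoImplicit false

namespace Pool.Agent.Results.MP_dae7ec_co.OutsideExceptionalFamilies

/-- isometries of the integer lattice: distance-preserving bijections (squared Euclidean
distances) -/
def IsLatticeIsometry (g : ℤ × ℤ → ℤ × ℤ) : Prop :=
  Function.Bijective g ∧
    ∀ p q : ℤ × ℤ, ((g p).1 - (g q).1) ^ 2 + ((g p).2 - (g q).2) ^ 2
      = (p.1 - q.1) ^ 2 + (p.2 - q.2) ^ 2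

/-- `S` tiles the whole lattice: some family of images of `S` under lattice isometries is pairwise
disjoint with union the whole lattice. -/
def Tiles (S : Set (ℤ × ℤ)) : Prop :=
  ∃ (I : Type) (g : I → ℤ × ℤ → ℤ × ℤ),
    (∀ i, IsLatticeIsometry (g i)) ∧
    (∀ i j, i ≠ j → Disjoint (g i '' S) (g j '' S)) ∧
    (⋃ i, g i '' S) = Set.univ

/-- the map is a translation or a point reflection of the lattice -/
def IsTranslationOrReflection (g : ℤ × ℤ → ℤ × ℤ) : Prop :=
  (∃ b : ℤ × ℤ, ∀ z, g z = b + z) ∨ ∃ b : ℤ × ℤ, ∀ z, g z = b - z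

/-- `S` tiles the whole lattice with translates of `S` and `-S`: some family of images of `S` under
lattice isometries, each of them a translation or a point reflection, is pairwise disjoint with
union the whole lattice. -/
def TilesPM (S : Set (ℤ × ℤ)) : Prop :=
  ∃ (I : Type) (g : I → ℤ × ℤ → ℤ × ℤ),
    (∀ i, IsLatticeIsometry (g i)) ∧ (∀ i, IsTranslationOrReflection (g i)) ∧
    (∀ i j, i ≠ j → Disjoint (g i '' S) (g j '' S)) ∧
    (⋃ i, g i '' S) = Set.univ

/-- the subgroup `Λ` of the lattice generated by the differences of points of `S` -/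
def differenceGroup (S : Finset (ℤ × ℤ)) : AddSubgroup (ℤ × ℤ) :=
  AddSubgroup.closure {x | ∃ p ∈ S, ∃ q ∈ S, x = p - q}

/-- `x` is in `5 Λ` -/
def InFive (S : Finset (ℤ × ℤ)) (x : ℤ × ℤ) : Prop := ∃ v ∈ differenceGroup S, x = 5 • v

/-- `x` is in `2 ^ k Λ` -/
def InTwoPow (S : Finset (ℤ × ℤ)) (k : ℕ) (x : ℤ × ℤ) : Prop :=
  ∃ v ∈ differenceGroup S, x = 2 ^ k • v

/-- the points of `S` are on a line -/
def OnLine (S : Finset (ℤ × ℤ)) : Prop := ∃ p v : ℤ × ℤ, ∀ x ∈ S, ∃ n : ℤ, x = p + n • v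

/-- the exceptional sets on a line: three points are congruent modulo `5 Λ`; or
`S = {p, p + d, q, q + e, x}` with `d, e, 2 x - p - q` in `5 Λ`, and for some `k` either the four
points other than `x` are congruent modulo `2 ^ k Λ` but `x` and `p` are not, or `p + d` is
congruent to `p`, and `q + e` and `x` are congruent to `q`, modulo `2 ^ k Λ`, but `p` and `q` are
not. -/
def ExceptionalOnLine (S : Finset (ℤ × ℤ)) : Prop :=
  (∃ p ∈ S, ∃ q ∈ S, ∃ r ∈ S, p ≠ q ∧ p ≠ r ∧ q ≠ r ∧ InFive S (p - q) ∧ InFive S (p - r)) ∨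
  ∃ p d q e x : ℤ × ℤ, S = {p, p + d, q, q + e, x} ∧ InFive S d ∧ InFive S e ∧
    InFive S (2 • x - p - q) ∧ ∃ k : ℕ,
      (InTwoPow S k d ∧ InTwoPow S k (q - p) ∧ InTwoPow S k (q + e - p) ∧
        ¬ InTwoPow S k (x - p)) ∨
      (InTwoPow S k d ∧ InTwoPow S k e ∧ InTwoPow S k (x - q) ∧ ¬ InTwoPow S k (q - p))

/-- the exceptional sets in the plane: (a) an affine image of `{(0,0), (3,0), (0,1), (1,1), (2,1)}`;
or a set `{p, p + d, x, y, z}` with `d ∈ 5 Λ` and (b) `x + z - 2 y ∈ 5 Λ`, where `d` is a multiple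
and `x + z - 2 y` an odd multiple of the same vector; (c) `x + y + z - 3 p ∈ 5 Λ`;
(d) `y - x ∈ 5 Λ`, where `d` and `y - x` are multiples of the same vector, one of them even and the
other odd; (e) `x - p ∈ 5 Λ`. -/
def ExceptionalPlanar (S : Finset (ℤ × ℤ)) : Prop :=
  (∃ p A B : ℤ × ℤ, S = {p, p + 3 • A, p + B, p + B + A, p + B + 2 • A}) ∨
  ∃ p d x y z : ℤ × ℤ, S = {p, p + d, x, y, z} ∧ InFive S d ∧
    ((InFive S (x + z - 2 • y) ∧ ∃ (n m : ℤ) (v : ℤ × ℤ), Odd m ∧ d = n • v ∧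
        x + z - 2 • y = m • v) ∨
      InFive S (x + y + z - 3 • p) ∨
      (InFive S (y - x) ∧ ∃ (n m : ℤ) (v : ℤ × ℤ), (Odd m ∧ Even n ∨ Odd n ∧ Even m) ∧
        d = n • v ∧ y - x = m • v) ∨
      InFive S (x - p))

open Pool.Agent.Lib.MP_dae7ec_co in
/-- from a tiling of the Gaussian integers by rotated copies to a tiling of `ℤ × ℤ` -/
theorem tiles_of_rotTiles (S : Finset GaussianInt) (h : RotTiles S) (A : Set (ℤ × ℤ))
    (hA : A = (fun z : GaussianInt => ((z.re, z.im) : ℤ × ℤ)) '' (S : Set GaussianInt)) :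
    Tiles A := by
  classical
  obtain ⟨P, hP⟩ := h
  -- exactly one
  have huniq : ∀ w : GaussianInt, ∃! q : Fin 4 × GaussianInt,
      q.2 ∈ S ∧ P q.1 (w - rot q.1 * q.2) = true := by
    intro w
    have h1 : ∑ q ∈ (Finset.univ : Finset (Fin 4)) ×ˢ S, (P q.1 (w - rot q.1 * q.2)).toNat = 1 := by
      rw [Finset.sum_product]
      exact hP w
    have h2 : (((Finset.univ : Finset (Fin 4)) ×ˢ S).filter
        fun q => P q.1 (w - rot q.1 * q.2) = true).card = 1 := by
      rw [Finset.card_filter]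
      refine Eq.trans ?_ h1
      refine Finset.sum_congr rfl fun q _ => ?_
      cases P q.1 (w - rot q.1 * q.2) <;> rfl
    obtain ⟨q, hq⟩ := Finset.card_eq_one.mp h2
    have hmem : ∀ q', (q'.2 ∈ S ∧ P q'.1 (w - rot q'.1 * q'.2) = true) ↔ q' = q := by
      intro q'
      have h3 : q' ∈ ({q} : Finset (Fin 4 × GaussianInt)) ↔ q' = q := Finset.mem_singleton
      rw [← h3, ← hq]
      simp
    exact ⟨q, (hmem q).mpr rfl, fun q' hq' => (hmem q').mp hq'⟩
  let F : Fin 4 → GaussianInt → ℤ × ℤ → ℤ × ℤ := fun k b p =>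
    ((rot k * ⟨p.1, p.2⟩ + b).re, (rot k * ⟨p.1, p.2⟩ + b).im)
  have hrot : ∀ k : Fin 4, rot k = 1 ∨ rot k = ⟨0, 1⟩ ∨ rot k = -1 ∨ rot k = ⟨0, -1⟩ := by
    intro k
    fin_cases k
    · exact Or.inl rot_zero
    · exact Or.inr (Or.inl rot_one)
    · exact Or.inr (Or.inr (Or.inl rot_two))
    · exact Or.inr (Or.inr (Or.inr rot_three))
  have hF : ∀ k b, IsLatticeIsometry (F k b) := by
    intro k b
    have hd : ∀ p q : ℤ × ℤ, ((F k b p).1 - (F k b q).1) ^ 2 + ((F k b p).2 - (F k b q).2) ^ 2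
        = (p.1 - q.1) ^ 2 + (p.2 - q.2) ^ 2 := by
      intro p q
      simp only [F, Zsqrtd.re_add, Zsqrtd.im_add, Zsqrtd.re_mul, Zsqrtd.im_mul]
      rcases hrot k with h | h | h | h <;> rw [h] <;> simp <;> ring
    refine ⟨⟨?_, ?_⟩, hd⟩
    · intro p q hpq
      have := hd p q
      rw [hpq] at this
      simp only [sub_self] at this
      have h1 := sq_nonneg (p.1 - q.1)
      have h2 := sq_nonneg (p.2 - q.2)
      have h3 : (p.1 - q.1) ^ 2 = 0 := by omega
      have h4 : (p.2 - q.2) ^ 2 = 0 := by omega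
      have h5 := pow_eq_zero_iff (two_ne_zero) |>.mp h3
      have h6 := pow_eq_zero_iff (two_ne_zero) |>.mp h4
      exact Prod.ext (by omega) (by omega)
    · rintro ⟨x, y⟩
      simp only [F, Zsqrtd.re_add, Zsqrtd.im_add, Zsqrtd.re_mul, Zsqrtd.im_mul]
      rcases hrot k with h | h | h | h <;> rw [h]
      · exact ⟨(x - b.re, y - b.im), by simp⟩
      · exact ⟨(y - b.im, -(x - b.re)), by simp⟩
      · exact ⟨(-(x - b.re), -(y - b.im)), by simp⟩
      · exact ⟨(-(y - b.im), x - b.re), by simp⟩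
  refine ⟨{q : Fin 4 × GaussianInt // P q.1 q.2 = true}, fun q => F q.1.1 q.1.2,
    fun q => hF _ _, ?_, ?_⟩
  · rintro ⟨⟨k, b⟩, hkb⟩ ⟨⟨k', b'⟩, hkb'⟩ hne
    rw [Set.disjoint_left]
    rintro w ⟨p, hp, hpw⟩ ⟨p', hp', hpw'⟩
    rw [hA] at hp hp'
    obtain ⟨s, hs, rfl⟩ := hp
    obtain ⟨s', hs', rfl⟩ := hp'
    simp only [F] at hpw hpw' hkb hkb'
    have e1 : rot k * s + b = ⟨w.1, w.2⟩ := by
      rw [← hpw]
    have e2 : rot k' * s' + b' = ⟨w.1, w.2⟩ := by
      rw [← hpw']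
    obtain ⟨q, -, hq⟩ := huniq ⟨w.1, w.2⟩
    have h1 := hq (k, s) ⟨hs, by rw [← e1]; simpa using hkb⟩
    have h2 := hq (k', s') ⟨hs', by rw [← e2]; simpa using hkb'⟩
    have h3 : k = k' := by
      have := h1.trans h2.symm
      exact (Prod.mk.inj this).1
    have h4 : s = s' := by
      have := h1.trans h2.symm
      exact (Prod.mk.inj this).2
    subst h3 h4
    apply hne
    have : b = b' := by
      have := e1.trans e2.symm
      exact add_left_cancel this
    rw [Subtype.mk.injEq, this]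
  · rw [Set.eq_univ_iff_forall]
    rintro ⟨x, y⟩
    obtain ⟨q, ⟨hq1, hq2⟩, -⟩ := huniq ⟨x, y⟩
    rw [Set.mem_iUnion]
    refine ⟨⟨(q.1, ⟨x, y⟩ - rot q.1 * q.2), hq2⟩, ?_⟩
    refine ⟨(q.2.re, q.2.im), ?_, ?_⟩
    · rw [hA]
      exact ⟨q.2, hq1, rfl⟩
    · simp only [F]
      rw [show rot q.1 * (⟨q.2.re, q.2.im⟩ : GaussianInt) + (⟨x, y⟩ - rot q.1 * q.2)
        = (⟨x, y⟩ : GaussianInt) by
          rw [show (⟨q.2.re, q.2.im⟩ : GaussianInt) = q.2 from rfl]; ring]

open Pool.Agent.Lib.MP_dae7ec_co in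
theorem tilesPM_of_pmTiles (s : Fin 5 → GaussianInt) (h : PmTiles s)
    (A : Set (ℤ × ℤ)) (hA : A = Set.range fun j => (((s j).re, (s j).im) : ℤ × ℤ)) : TilesPM A := by
  classical
  obtain ⟨P, Q, hPQ⟩ := h
  -- index: sign, translation vector
  let I : Type := {q : Bool × GaussianInt // (if q.1 then Q q.2 else P q.2) = true}
  let G : Bool → GaussianInt → ℤ × ℤ → ℤ × ℤ := fun b t z =>
    if b then ((t.re, t.im) : ℤ × ℤ) - z else ((t.re, t.im) : ℤ × ℤ) + z
  have hG : ∀ b t, IsLatticeIsometry (G b t) := by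
    intro b t
    cases b
    · refine ⟨⟨fun x y hxy => ?_, fun y => ⟨y - ((t.re, t.im) : ℤ × ℤ), ?_⟩⟩, fun p q => ?_⟩
      · simpa [G] using hxy
      · simp [G]
      · simp [G]
    · refine ⟨⟨fun x y hxy => ?_, fun y => ⟨((t.re, t.im) : ℤ × ℤ) - y, ?_⟩⟩, fun p q => ?_⟩
      · simpa [G] using hxy
      · simp [G]
      · simp [G]; ring
  -- every point is covered exactly once
  have huniq : ∀ w : GaussianInt, ∃! q : Bool × Fin 5,
      (if q.1 then Q (w + s q.2) else P (w - s q.2)) = true := by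
    intro w
    have h1 : ∑ q ∈ (Finset.univ : Finset (Bool × Fin 5)),
        (if (if q.1 then Q (w + s q.2) else P (w - s q.2)) = true then 1 else 0) = 1 := by
      refine Eq.trans ?_ (hPQ w)
      rw [Finset.sum_add_distrib, ← Finset.univ_product_univ, Finset.sum_product, Fintype.sum_bool,
        add_comm]
      refine congrArg₂ (· + ·) ?_ ?_
      · refine Finset.sum_congr rfl fun j _ => ?_
        show (if (if false = true then Q (w + s j) else P (w - s j)) = true then 1 else 0) = _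
        cases P (w - s j) <;> simp
      · refine Finset.sum_congr rfl fun j _ => ?_
        show (if (if true = true then Q (w + s j) else P (w - s j)) = true then 1 else 0) = _
        cases Q (w + s j) <;> simp
    rw [← Finset.card_filter, Finset.card_eq_one] at h1
    obtain ⟨q, hq⟩ := h1
    have hmem : ∀ q' : Bool × Fin 5,
        ((if q'.1 then Q (w + s q'.2) else P (w - s q'.2)) = true) ↔ q' = q := by
      intro q'
      have h2 : q' ∈ ({q} : Finset (Bool × Fin 5)) ↔ q' = q := Finset.mem_singleton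
      rw [← h2, ← hq, Finset.mem_filter]
      simp
    exact ⟨q, (hmem q).mpr rfl, fun q' hq' => (hmem q').mp hq'⟩
  refine ⟨I, fun i => G i.1.1 i.1.2, fun i => hG _ _, ?_, ?_, ?_⟩
  · rintro ⟨⟨b, t⟩, h⟩
    cases b
    · exact Or.inl ⟨(t.re, t.im), fun z => by simp [G]⟩
    · exact Or.inr ⟨(t.re, t.im), fun z => by simp [G]⟩
  · rintro ⟨⟨b, t⟩, h⟩ ⟨⟨b', t'⟩, h'⟩ hne
    rw [Set.disjoint_left]
    rintro w ⟨p, hp, hpw⟩ ⟨p', hp', hpw'⟩
    rw [hA] at hp hp'
    obtain ⟨j, rfl⟩ := hp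
    obtain ⟨j', rfl⟩ := hp'
    obtain ⟨q, -, hq⟩ := huniq ⟨w.1, w.2⟩
    have e : ∀ (b : Bool) (t : GaussianInt) (j : Fin 5), (if b then Q t else P t) = true →
        G b t ((s j).re, (s j).im) = w →
        (if b then Q ((⟨w.1, w.2⟩ : GaussianInt) + s j) else P (⟨w.1, w.2⟩ - s j)) = true ∧
        t = (if b then (⟨w.1, w.2⟩ : GaussianInt) + s j else ⟨w.1, w.2⟩ - s j) := by
      intro b t j hb hw
      cases b
      · have ht : t = (⟨w.1, w.2⟩ : GaussianInt) - s j := by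
          rw [← hw]
          apply Zsqrtd.ext <;> simp [G]
        refine ⟨?_, by simpa using ht⟩
        rw [ht] at hb
        simpa using hb
      · have ht : t = (⟨w.1, w.2⟩ : GaussianInt) + s j := by
          rw [← hw]
          apply Zsqrtd.ext <;> simp [G]
        refine ⟨?_, by simpa using ht⟩
        rw [ht] at hb
        simpa using hb
    obtain ⟨e1, e2⟩ := e b t j h hpw
    obtain ⟨e3, e4⟩ := e b' t' j' h' hpw'
    have h5 := hq (b, j) e1
    have h6 := hq (b', j') e3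
    have h7 := h5.trans h6.symm
    obtain ⟨h8, h9⟩ := Prod.mk.inj h7
    subst h8 h9
    apply hne
    have h10 : t = t' := by rw [e2, e4]
    subst h10
    rfl
  · rw [Set.eq_univ_iff_forall]
    rintro ⟨x, y⟩
    obtain ⟨⟨b, j⟩, hq, -⟩ := huniq ⟨x, y⟩
    rw [Set.mem_iUnion]
    cases b
    · refine ⟨⟨(false, (⟨x, y⟩ : GaussianInt) - s j), by simpa using hq⟩, ((s j).re, (s j).im), ?_, ?_⟩
      · rw [hA]; exact ⟨j, rfl⟩
      · simp [G]
    · refine ⟨⟨(true, (⟨x, y⟩ : GaussianInt) + s j), by simpa using hq⟩, ((s j).re, (s j).im), ?_, ?_⟩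
      · rw [hA]; exact ⟨j, rfl⟩
      · simp [G]

/-- coordinates of a subgroup of the lattice modulo five -/
theorem exists_coordinates (L : Submodule ℤ (ℤ × ℤ)) :
    ∃ a b : L →ₗ[ℤ] ℤ, ∀ v : L, (5 : ℤ) ∣ a v → (5 : ℤ) ∣ b v → ∃ w ∈ L, (v : ℤ × ℤ) = 5 • w := by
  classical
  obtain ⟨n, ⟨B⟩⟩ := Submodule.nonempty_basis_of_pid (Module.Basis.finTwoProd ℤ) L
  have hn : n ≤ 2 := by
    have h1 : Module.finrank ℤ L = n := by rw [Module.finrank_eq_card_basis B, Fintype.card_fin]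
    have h2 : Module.finrank ℤ L ≤ Module.finrank ℤ (ℤ × ℤ) := Submodule.finrank_le L
    have h3 : Module.finrank ℤ (ℤ × ℤ) = 2 := by
      rw [Module.finrank_eq_card_basis (Module.Basis.finTwoProd ℤ), Fintype.card_fin]
    omega
  have key : ∀ v : L, (∀ i : Fin n, (5 : ℤ) ∣ B.repr v i) → ∃ w ∈ L, (v : ℤ × ℤ) = 5 • w := by
    intro v hv
    choose c hc using hv
    refine ⟨((∑ i, c i • B i : L) : ℤ × ℤ), Submodule.coe_mem _, ?_⟩
    have h1 : v = 5 • (∑ i, c i • B i : L) := by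
      conv_lhs => rw [← B.sum_repr v]
      rw [Finset.smul_sum]
      refine Finset.sum_congr rfl fun i _ => ?_
      rw [hc i, mul_smul]
      exact ofNat_smul_eq_nsmul ℤ 5 (c i • B i)
    conv_lhs => rw [h1]
    rfl
  interval_cases n
  · exact ⟨0, 0, fun v _ _ => key v (fun i => i.elim0)⟩
  · refine ⟨B.coord 0, 0, fun v h _ => key v (fun i => ?_)⟩
    have : i = 0 := Subsingleton.elim _ _
    rw [this]; exact h
  · refine ⟨B.coord 0, B.coord 1, fun v h k => key v (fun i => ?_)⟩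
    fin_cases i
    · exact h
    · exact k

/-- a retraction of the lattice onto a subgroup, compatible with translations by the subgroup -/
theorem exists_retraction (L : Submodule ℤ (ℤ × ℤ)) :
    ∃ l : ℤ × ℤ → L, ∀ (z : ℤ × ℤ) (v : L), l (z + v) = l z + v := by
  classical
  have hmem : ∀ z : ℤ × ℤ, z - Quotient.out (Submodule.Quotient.mk (p := L) z) ∈ L := by
    intro z
    rw [← Submodule.Quotient.eq]
    exact (Quotient.out_eq _).symm
  refine ⟨fun z => ⟨z - Quotient.out (Submodule.Quotient.mk (p := L) z), hmem z⟩, fun z v => ?_⟩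
  apply Subtype.ext
  have h1 : (Submodule.Quotient.mk (p := L) (z + (v : ℤ × ℤ))) = Submodule.Quotient.mk (p := L) z := by
    rw [Submodule.Quotient.eq]
    simp
  show z + (v : ℤ × ℤ) - Quotient.out (Submodule.Quotient.mk (p := L) (z + (v : ℤ × ℤ)))
    = z - Quotient.out (Submodule.Quotient.mk (p := L) z) + v
  rw [h1]
  abel

/-- coordinates of a subgroup of the lattice modulo five, or the subgroup is cyclic -/
theorem exists_coordinates_planar (L : Submodule ℤ (ℤ × ℤ)) :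
    (∃ w : ℤ × ℤ, ∀ v ∈ L, ∃ n : ℤ, v = n • w) ∨
    ∃ a b : L →ₗ[ℤ] ℤ, (∀ v : L, (5 : ℤ) ∣ a v → (5 : ℤ) ∣ b v → ∃ w ∈ L, (v : ℤ × ℤ) = 5 • w) ∧
      ∃ u v : L, a u * b v - b u * a v = 1 := by
  classical
  obtain ⟨n, ⟨B⟩⟩ := Submodule.nonempty_basis_of_pid (Module.Basis.finTwoProd ℤ) L
  have hn : n ≤ 2 := by
    have h1 : Module.finrank ℤ L = n := by rw [Module.finrank_eq_card_basis B, Fintype.card_fin]
    have h2 : Module.finrank ℤ L ≤ Module.finrank ℤ (ℤ × ℤ) := Submodule.finrank_le L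
    have h3 : Module.finrank ℤ (ℤ × ℤ) = 2 := by
      rw [Module.finrank_eq_card_basis (Module.Basis.finTwoProd ℤ), Fintype.card_fin]
    omega
  have key : ∀ v : L, (∀ i : Fin n, (5 : ℤ) ∣ B.repr v i) → ∃ w ∈ L, (v : ℤ × ℤ) = 5 • w := by
    intro v hv
    choose c hc using hv
    refine ⟨((∑ i, c i • B i : L) : ℤ × ℤ), Submodule.coe_mem _, ?_⟩
    have h1 : v = 5 • (∑ i, c i • B i : L) := by
      conv_lhs => rw [← B.sum_repr v]
      rw [Finset.smul_sum]
      refine Finset.sum_congr rfl fun i _ => ?_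
      rw [hc i, mul_smul]
      exact ofNat_smul_eq_nsmul ℤ 5 (c i • B i)
    conv_lhs => rw [h1]
    rfl
  have hrepr : ∀ v : L, (v : ℤ × ℤ) = ((∑ i, B.repr v i • B i : L) : ℤ × ℤ) := by
    intro v
    rw [B.sum_repr v]
  interval_cases n
  · left
    refine ⟨0, fun v hv => ⟨0, ?_⟩⟩
    have h := hrepr ⟨v, hv⟩
    simpa using h
  · left
    refine ⟨((B 0 : L) : ℤ × ℤ), fun v hv => ⟨B.repr ⟨v, hv⟩ 0, ?_⟩⟩
    have h := hrepr ⟨v, hv⟩
    simpa using h
  · right
    refine ⟨B.coord 0, B.coord 1, fun v h k => key v (fun i => ?_), B 0, B 1, ?_⟩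
    · fin_cases i
      · exact h
      · exact k
    · simp [Module.Basis.coord_apply]


/-- if all labels are parallel modulo five then so are all pairs of vectors of the lattice -/
theorem det_span (S : Finset (ℤ × ℤ)) (P : Fin 5 → ℤ × ℤ) (hP : (S : Set (ℤ × ℤ)) = Set.range P)
    (a b : AddSubgroup.toIntSubmodule (differenceGroup S) →ₗ[ℤ] ℤ)
    (hL : ∀ j, P j - P 0 ∈ AddSubgroup.toIntSubmodule (differenceGroup S))
    (h : ∀ i j, ((a ⟨P i - P 0, hL i⟩ * b ⟨P j - P 0, hL j⟩ - b ⟨P i - P 0, hL i⟩ *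
      a ⟨P j - P 0, hL j⟩ : ℤ) : ZMod 5) = 0)
    (u v : AddSubgroup.toIntSubmodule (differenceGroup S)) :
    ((a u * b v - b u * a v : ℤ) : ZMod 5) = 0 := by
  -- differences of points
  have hdiff : ∀ i j : Fin 5, ∀ hx : P i - P j ∈ AddSubgroup.toIntSubmodule (differenceGroup S),
      (⟨P i - P j, hx⟩ : AddSubgroup.toIntSubmodule (differenceGroup S))
        = ⟨P i - P 0, hL i⟩ - ⟨P j - P 0, hL j⟩ := by
    intro i j hx
    apply Subtype.ext
    show P i - P j = P i - P 0 - (P j - P 0)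
    abel
  have hmem : ∀ p ∈ S, ∃ j, P j = p := by
    intro p hp
    have : p ∈ Set.range P := by rw [← hP]; exact hp
    exact this
  -- one variable
  have step : ∀ (u : AddSubgroup.toIntSubmodule (differenceGroup S)),
      (∀ j, ((a u * b ⟨P j - P 0, hL j⟩ - b u * a ⟨P j - P 0, hL j⟩ : ℤ) : ZMod 5) = 0) →
      ∀ v : AddSubgroup.toIntSubmodule (differenceGroup S),
        ((a u * b v - b u * a v : ℤ) : ZMod 5) = 0 := by
    intro u hu v
    obtain ⟨v, hv⟩ := v
    have hv' : v ∈ AddSubgroup.closure {x | ∃ p ∈ S, ∃ q ∈ S, x = p - q} := hv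
    induction hv' using AddSubgroup.closure_induction with
    | mem x hx =>
      obtain ⟨p, hp, q, hq, rfl⟩ := hx
      obtain ⟨i, rfl⟩ := hmem p hp
      obtain ⟨j, rfl⟩ := hmem q hq
      rw [hdiff i j hv, map_sub, map_sub]
      have e1 := hu i
      have e2 := hu j
      push_cast at e1 e2 ⊢
      linear_combination e1 - e2
    | zero =>
      have : (⟨0, hv⟩ : AddSubgroup.toIntSubmodule (differenceGroup S)) = 0 := rfl
      rw [this, map_zero, map_zero]; simp
    | add x y hx hy ihx ihy =>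
      have e1 := ihx hx
      have e2 := ihy hy
      have : (⟨x + y, hv⟩ : AddSubgroup.toIntSubmodule (differenceGroup S)) = ⟨x, hx⟩ + ⟨y, hy⟩ := rfl
      rw [this, map_add, map_add]
      push_cast at e1 e2 ⊢
      linear_combination e1 + e2
    | neg x hx ih =>
      have e1 := ih hx
      have : (⟨-x, hv⟩ : AddSubgroup.toIntSubmodule (differenceGroup S)) = -⟨x, hx⟩ := rfl
      rw [this, map_neg, map_neg]
      push_cast at e1 ⊢
      linear_combination -e1
  refine step u (fun j => ?_) v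
  have := step ⟨P j - P 0, hL j⟩ (fun i => h j i) u
  push_cast at this ⊢
  linear_combination -this

theorem set_five {S : Finset (ℤ × ℤ)} {P : Fin 5 → ℤ × ℤ} (hP : (S : Set (ℤ × ℤ)) = Set.range P)
    (σ : Equiv.Perm (Fin 5)) (x0 x1 x2 x3 x4 : ℤ × ℤ) (i0 i1 i2 i3 i4 : Fin 5)
    (hi : ∀ k, k = i0 ∨ k = i1 ∨ k = i2 ∨ k = i3 ∨ k = i4)
    (h0 : P (σ i0) = x0) (h1 : P (σ i1) = x1) (h2 : P (σ i2) = x2) (h3 : P (σ i3) = x3)
    (h4 : P (σ i4) = x4) : S = {x0, x1, x2, x3, x4} := by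
  apply Finset.coe_injective
  rw [hP]
  ext x
  simp only [Set.mem_range, Finset.coe_insert, Finset.coe_singleton, Set.mem_insert_iff,
    Set.mem_singleton_iff]
  constructor
  · rintro ⟨j, rfl⟩
    obtain ⟨i, rfl⟩ := σ.surjective j
    rcases hi i with rfl | rfl | rfl | rfl | rfl
    · exact Or.inl h0
    · exact Or.inr (Or.inl h1)
    · exact Or.inr (Or.inr (Or.inl h2))
    · exact Or.inr (Or.inr (Or.inr (Or.inl h3)))
    · exact Or.inr (Or.inr (Or.inr (Or.inr h4)))
  · rintro (h | h | h | h | h)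
    · exact ⟨_, h0.trans h.symm⟩
    · exact ⟨_, h1.trans h.symm⟩
    · exact ⟨_, h2.trans h.symm⟩
    · exact ⟨_, h3.trans h.symm⟩
    · exact ⟨_, h4.trans h.symm⟩

open Pool.Agent.Lib.MP_dae7ec_co in
/-- the case of the plane -/
theorem planar (S : Finset (ℤ × ℤ)) (hcard : S.card = 5) (hOL : ¬ OnLine S)
    (hex' : ¬ ExceptionalPlanar S) : TilesPM (S : Set (ℤ × ℤ)) := by
  classical
  have hex : ¬ (OnLine S ∨ ExceptionalPlanar S) := fun h => h.elim hOL hex'
  -- enumerate the points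
  obtain ⟨e⟩ : Nonempty (Fin 5 ≃ S) := by
    refine ⟨(Fintype.equivFinOfCardEq ?_).symm⟩
    rw [Fintype.card_coe, hcard]
  let P : Fin 5 → ℤ × ℤ := fun j => (e j : ℤ × ℤ)
  have hP : Function.Injective P := fun i j h => e.injective (Subtype.ext h)
  have hrange : (S : Set (ℤ × ℤ)) = Set.range P := by
    ext x
    constructor
    · intro hx
      exact ⟨e.symm ⟨x, hx⟩, by simp [P]⟩
    · rintro ⟨j, rfl⟩
      exact (e j).2
  let s : Fin 5 → GaussianInt := fun j => ⟨(P j).1, (P j).2⟩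
  have hs : Function.Injective s := by
    intro i j h
    apply hP
    have h1 : (s i).re = (s j).re := by rw [h]
    have h2 : (s i).im = (s j).im := by rw [h]
    exact Prod.ext h1 h2
  let L : Submodule ℤ (ℤ × ℤ) := AddSubgroup.toIntSubmodule (differenceGroup S)
  have hL : ∀ i j, P i - P j ∈ L := fun i j =>
    AddSubgroup.subset_closure ⟨P i, (e i).2, P j, (e j).2, rfl⟩
  obtain ⟨l, hl⟩ := exists_retraction L
  -- residue functions from coordinates
  have hinc : ∀ a : L →ₗ[ℤ] ℤ, Inc s (fun z : GaussianInt => ((a (l (z.re, z.im)) : ℤ) : ZMod 5))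
      (fun j => ((a ⟨P j - P 0, hL j 0⟩ : ℤ) : ZMod 5)) := by
    intro a z j
    show ((a (l ((z + (s j - s 0)).re, (z + (s j - s 0)).im)) : ℤ) : ZMod 5) = _
    have h1 : (((z + (s j - s 0)).re, (z + (s j - s 0)).im) : ℤ × ℤ)
        = ((z.re, z.im) : ℤ × ℤ) + ((⟨P j - P 0, hL j 0⟩ : L) : ℤ × ℤ) := by
      simp only [Zsqrtd.re_add, Zsqrtd.im_add, Zsqrtd.re_sub, Zsqrtd.im_sub, s]
      rfl
    rw [h1, hl, map_add, Int.cast_add]
  -- an integral combination of the labels which vanishes gives a vector of `5 Λ`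
  have hfive : ∀ a b : L →ₗ[ℤ] ℤ, (∀ v : L, (5 : ℤ) ∣ a v → (5 : ℤ) ∣ b v →
      ∃ w ∈ L, (v : ℤ × ℤ) = 5 • w) → ∀ v : L, ((a v : ℤ) : ZMod 5) = 0 → ((b v : ℤ) : ZMod 5) = 0 →
      InFive S (v : ℤ × ℤ) := by
    intro a b hab v h1 h2
    obtain ⟨w, hw, hw2⟩ := hab v ((ZMod.intCast_zmod_eq_zero_iff_dvd _ 5).mp h1)
      ((ZMod.intCast_zmod_eq_zero_iff_dvd _ 5).mp h2)
    exact ⟨w, hw, hw2⟩
  have k : ∀ j (z : GaussianInt), s j = z → P j = (z.re, z.im) := by
    intro j z hz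
    rw [← hz]
  -- the first exceptional family
  have hE1 : ¬ Exc s := by
    rintro ⟨σ, p, A, B, h0, h1, h2, h3, h4⟩
    apply hex
    refine Or.inr (Or.inl ⟨(p.re, p.im), (A.re, A.im), (B.re, B.im), ?_⟩)
    refine set_five hrange σ _ _ _ _ _ 0 1 2 3 4 (by decide) ?_ ?_ ?_ ?_ ?_
    · rw [k _ _ h0]
    · rw [k _ _ h1]; simp
    · rw [k _ _ h2]; simp
    · rw [k _ _ h3]; simp
    · rw [k _ _ h4]; simp
  rcases exists_coordinates_planar L with ⟨w, hw⟩ | ⟨a, b, hab, hone⟩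
  · -- the points lie on a line
    have hline : ∃ p v : ℤ × ℤ, ∀ x ∈ S, ∃ n : ℤ, x = p + n • v := by
      refine ⟨P 0, w, fun x hx => ?_⟩
      have hx' : x ∈ Set.range P := by rw [← hrange]; exact hx
      obtain ⟨j, rfl⟩ := hx'
      obtain ⟨n, hn⟩ := hw _ (hL j 0)
      exact ⟨n, by rw [← hn]; abel⟩
    exact absurd (Or.inl hline) hex
  · -- the labels span the plane
    have hspan : ∃ i j : Fin 5,
        ((a ⟨P i - P 0, hL i 0⟩ : ℤ) : ZMod 5) * ((b ⟨P j - P 0, hL j 0⟩ : ℤ) : ZMod 5) -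
        ((b ⟨P i - P 0, hL i 0⟩ : ℤ) : ZMod 5) * ((a ⟨P j - P 0, hL j 0⟩ : ℤ) : ZMod 5) ≠ 0 := by
      by_contra hcon
      push Not at hcon
      obtain ⟨u, v, huv⟩ := hone
      have h1 := det_span S P hrange a b (fun j => hL j 0) (fun i j => by
        have := hcon i j
        push_cast
        exact this) u v
      rw [huv] at h1
      exact absurd h1 (by decide)
    rcases pm_or_excD hs (hinc a) (hinc b) hspan with h | h | h
    · exact tilesPM_of_pmTiles s h _ hrange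
    · exact absurd h hE1
    · exfalso
      apply hex
      obtain ⟨σ, hA, hB, h⟩ := h
      beta_reduce at hA hB h
      -- differences in terms of the base point
      have sub_mem : ∀ i j : Fin 5, ((a ⟨P i - P 0, hL i 0⟩ : ℤ) : ZMod 5)
          = ((a ⟨P j - P 0, hL j 0⟩ : ℤ) : ZMod 5) → ((b ⟨P i - P 0, hL i 0⟩ : ℤ) : ZMod 5)
          = ((b ⟨P j - P 0, hL j 0⟩ : ℤ) : ZMod 5) → InFive S (P i - P j) := by
        intro i j h1 h2
        have h3 : (⟨P i - P j, hL i j⟩ : L) = ⟨P i - P 0, hL i 0⟩ - ⟨P j - P 0, hL j 0⟩ := by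
          apply Subtype.ext
          show P i - P j = P i - P 0 - (P j - P 0)
          abel
        exact hfive a b hab ⟨P i - P j, hL i j⟩
          (by rw [h3, map_sub, Int.cast_sub, h1, sub_self])
          (by rw [h3, map_sub, Int.cast_sub, h2, sub_self])
      have hd : InFive S (P (σ 3) - P (σ 0)) := sub_mem _ _ hA hB
      -- reading off vector identities
      have rd : ∀ (z : GaussianInt) (n : ℤ) (v : GaussianInt), z = (n : GaussianInt) * v →
          ((z.re, z.im) : ℤ × ℤ) = n • ((v.re, v.im) : ℤ × ℤ) := by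
        intro z n v hz
        rw [hz]
        simp
      have hsub : ∀ i j : Fin 5, (((s i - s j).re, (s i - s j).im) : ℤ × ℤ) = P i - P j := by
        intro i j
        apply Prod.ext <;> simp [s]
      have hP3 : P (σ 3) = P (σ 0) + (P (σ 3) - P (σ 0)) := by abel
      rcases h with ⟨h1, h2, n, m, v, hm, hv1, hv2⟩ | ⟨h1, h2⟩ | ⟨h1, h2, n, m, v, hnm, hv1, hv2⟩ |
        ⟨h1, h2⟩
      · refine Or.inr (Or.inr ⟨P (σ 0), P (σ 3) - P (σ 0), P (σ 2), P (σ 1), P (σ 4),
          set_five hrange σ _ _ _ _ _ 0 3 2 1 4 (by decide) rfl hP3 rfl rfl rfl, hd,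
          Or.inl ⟨?_, n, m, (v.re, v.im), hm, ?_, ?_⟩⟩)
        · have h3 : P (σ 2) + P (σ 4) - 2 • P (σ 1) =
              ((⟨P (σ 2) - P 0, hL _ _⟩ + ⟨P (σ 4) - P 0, hL _ _⟩ - (⟨P (σ 1) - P 0, hL _ _⟩
                + ⟨P (σ 1) - P 0, hL _ _⟩) : L) : ℤ × ℤ) := by
            show P (σ 2) + P (σ 4) - 2 • P (σ 1) = P (σ 2) - P 0 + (P (σ 4) - P 0)
              - (P (σ 1) - P 0 + (P (σ 1) - P 0))
            rw [two_smul]; abel
          rw [h3]
          refine hfive a b hab _ ?_ ?_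
          · rw [map_sub, map_add, map_add]
            push_cast
            linear_combination h1
          · rw [map_sub, map_add, map_add]
            push_cast
            linear_combination h2
        · rw [← hsub]
          exact rd _ _ _ hv1
        · rw [← rd _ _ _ hv2]
          apply Prod.ext
          · simp [s]
          · simp [s]
      · refine Or.inr (Or.inr ⟨P (σ 0), P (σ 3) - P (σ 0), P (σ 1), P (σ 2), P (σ 4),
          set_five hrange σ _ _ _ _ _ 0 3 1 2 4 (by decide) rfl hP3 rfl rfl rfl, hd,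
          Or.inr (Or.inl ?_)⟩)
        have h3 : P (σ 1) + P (σ 2) + P (σ 4) - 3 • P (σ 0) =
            ((⟨P (σ 1) - P 0, hL _ _⟩ + ⟨P (σ 2) - P 0, hL _ _⟩ + ⟨P (σ 4) - P 0, hL _ _⟩
              - (⟨P (σ 0) - P 0, hL _ _⟩ + ⟨P (σ 0) - P 0, hL _ _⟩ + ⟨P (σ 0) - P 0, hL _ _⟩) : L)
              : ℤ × ℤ) := by
          show P (σ 1) + P (σ 2) + P (σ 4) - 3 • P (σ 0) = P (σ 1) - P 0 + (P (σ 2) - P 0)
            + (P (σ 4) - P 0) - (P (σ 0) - P 0 + (P (σ 0) - P 0) + (P (σ 0) - P 0))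
          rw [show (3 : ℕ) = 2 + 1 from rfl, add_smul, two_smul, one_smul]; abel
        rw [h3]
        refine hfive a b hab _ ?_ ?_
        · rw [map_sub, map_add, map_add, map_add, map_add]
          push_cast
          linear_combination h1
        · rw [map_sub, map_add, map_add, map_add, map_add]
          push_cast
          linear_combination h2
      · refine Or.inr (Or.inr ⟨P (σ 0), P (σ 3) - P (σ 0), P (σ 1), P (σ 4), P (σ 2),
          set_five hrange σ _ _ _ _ _ 0 3 1 4 2 (by decide) rfl hP3 rfl rfl rfl, hd,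
          Or.inr (Or.inr (Or.inl ⟨sub_mem _ _ h1 h2, n, m, (v.re, v.im), hnm, ?_, ?_⟩))⟩)
        · rw [← hsub]
          exact rd _ _ _ hv1
        · rw [← hsub]
          exact rd _ _ _ hv2
      · exact Or.inr (Or.inr ⟨P (σ 0), P (σ 3) - P (σ 0), P (σ 4), P (σ 1), P (σ 2),
          set_five hrange σ _ _ _ _ _ 0 3 4 1 2 (by decide) rfl hP3 rfl rfl rfl, hd,
          Or.inr (Or.inr (Or.inr (sub_mem _ _ h1 h2)))⟩)

open Pool.Agent.Lib.MP_dae7ec_co in
/-- the case of a line -/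
theorem linear (S : Finset (ℤ × ℤ)) (hcard : S.card = 5) (hOL : OnLine S)
    (hex : ¬ ExceptionalOnLine S) : Tiles (S : Set (ℤ × ℤ)) := by
  classical
  -- enumerate the points
  obtain ⟨e⟩ : Nonempty (Fin 5 ≃ S) := by
    refine ⟨(Fintype.equivFinOfCardEq ?_).symm⟩
    rw [Fintype.card_coe, hcard]
  let P : Fin 5 → ℤ × ℤ := fun j => (e j : ℤ × ℤ)
  have hP : Function.Injective P := fun i j h => e.injective (Subtype.ext h)
  have hrange : (S : Set (ℤ × ℤ)) = Set.range P := by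
    ext x
    constructor
    · intro hx
      exact ⟨e.symm ⟨x, hx⟩, by simp [P]⟩
    · rintro ⟨j, rfl⟩
      exact (e j).2
  have hL : ∀ i j, P i - P j ∈ differenceGroup S := fun i j =>
    AddSubgroup.subset_closure ⟨P i, (e i).2, P j, (e j).2, rfl⟩
  -- a generator of the difference group
  obtain ⟨p, v, hv⟩ := hOL
  have hmul : ∀ u ∈ differenceGroup S, ∃ n : ℤ, u = n • v := by
    intro u hu
    have hu' : u ∈ AddSubgroup.closure {x | ∃ p ∈ S, ∃ q ∈ S, x = p - q} := hu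
    have hle : AddSubgroup.closure {x | ∃ p ∈ S, ∃ q ∈ S, x = p - q} ≤
        AddSubgroup.zmultiples v := by
      rw [AddSubgroup.closure_le]
      rintro x ⟨a, ha, b, hb, rfl⟩
      obtain ⟨n, hn⟩ := hv a ha
      obtain ⟨m, hm⟩ := hv b hb
      refine ⟨n - m, ?_⟩
      show (n - m) • v = a - b
      rw [hn, hm, sub_smul]; abel
    obtain ⟨n, hn⟩ := hle hu'
    exact ⟨n, hn.symm⟩
  obtain ⟨g, hg⟩ := Int.subgroup_cyclic ((differenceGroup S).comap (zmultiplesHom (ℤ × ℤ) v))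
  have hgm : ∀ n : ℤ, n • v ∈ differenceGroup S ↔ ∃ m : ℤ, m * g = n := by
    intro n
    have h1 : n ∈ (differenceGroup S).comap (zmultiplesHom (ℤ × ℤ) v) ↔
        n ∈ AddSubgroup.closure {g} := by rw [hg]
    rw [AddSubgroup.mem_comap, AddSubgroup.mem_closure_singleton] at h1
    simp only [zmultiplesHom_apply, smul_eq_mul] at h1
    exact h1
  set w : ℤ × ℤ := g • v with hw
  have hwL : w ∈ differenceGroup S := (hgm g).mpr ⟨1, one_mul g⟩
  have hrep : ∀ u ∈ differenceGroup S, ∃ m : ℤ, u = m • w := by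
    intro u hu
    obtain ⟨n, rfl⟩ := hmul u hu
    obtain ⟨m, hm⟩ := (hgm n).mp hu
    exact ⟨m, by rw [hw, ← mul_smul, hm]⟩
  have hrep' : ∀ j, ∃ m : ℤ, P j - P 0 = m • w := fun j => hrep _ (hL j 0)
  choose t ht using hrep'
  have hw0 : w ≠ 0 := by
    intro h0
    have h1 := ht 1
    rw [h0, smul_zero, sub_eq_zero] at h1
    exact absurd (hP h1) (by decide)
  have hsub : ∀ i j, P i - P j = (t i - t j) • w := by
    intro i j
    rw [sub_smul, ← ht, ← ht]; abel
  have hcancel : ∀ n m : ℤ, n • w = m • w → n = m := by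
    intro n m h
    have h1 : (n * w.1, n * w.2) = (m * w.1, m * w.2) := h
    obtain ⟨h2, h3⟩ := Prod.mk.inj h1
    by_cases h4 : w.1 = 0
    · have h5 : w.2 ≠ 0 := fun h5 => hw0 (Prod.ext h4 h5)
      exact mul_right_cancel₀ h5 h3
    · exact mul_right_cancel₀ h4 h2
  have htinj : Function.Injective t := by
    intro i j hij
    apply hP
    have h1 := hsub i j
    rw [hij, sub_self, zero_smul, sub_eq_zero] at h1
    exact h1
  have hfive : ∀ n : ℤ, (5 : ℤ) ∣ n → InFive S (n • w) := by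
    rintro n ⟨m, rfl⟩
    exact ⟨m • w, AddSubgroup.zsmul_mem _ hwL m, by rw [mul_smul]; rfl⟩
  have htwo : ∀ (k : ℕ) (n : ℤ), (2 : ℤ) ^ k ∣ n ↔ InTwoPow S k (n • w) := by
    intro k n
    have hcast : ∀ u : ℤ × ℤ, (2 ^ k : ℕ) • u = ((2 : ℤ) ^ k) • u := by
      intro u
      rw [← Nat.cast_smul_eq_nsmul ℤ]
      push_cast
      rfl
    constructor
    · rintro ⟨m, rfl⟩
      exact ⟨m • w, AddSubgroup.zsmul_mem _ hwL m, by rw [mul_smul, hcast]⟩
    · rintro ⟨u, hu, h⟩
      obtain ⟨m, rfl⟩ := hrep u hu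
      rw [hcast, ← mul_smul ((2 : ℤ) ^ k) m w] at h
      exact ⟨m, hcancel _ _ h⟩
  rcases line_good htinj with h | ⟨i, j, k, h1, h2, h3, h4, h5⟩ | ⟨σ, h1, h2, h3, k, h4⟩
  · -- a tiling of the integers
    have hd : (⟨w.1, w.2⟩ : GaussianInt) ≠ 0 := by
      intro h0
      apply hw0
      have h1 : (⟨w.1, w.2⟩ : GaussianInt).re = 0 := by rw [h0]; rfl
      have h2 : (⟨w.1, w.2⟩ : GaussianInt).im = 0 := by rw [h0]; rfl
      exact Prod.ext h1 h2
    refine tiles_of_rotTiles _ (((h.rotTiles htinj).scale hd).translate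
      (⟨(P 0).1, (P 0).2⟩ : GaussianInt)) _ ?_
    rw [hrange, Finset.coe_image, Finset.coe_image, Finset.coe_image, Finset.coe_univ,
      Set.image_univ, ← Set.range_comp, ← Set.range_comp, ← Set.range_comp]
    congr 1
    ext j
    · show (P j).1 = ((⟨(P 0).1, (P 0).2⟩ : GaussianInt) + ⟨w.1, w.2⟩ * ((t j : ℤ) : GaussianInt)).re
      have h1 : (P j).1 - (P 0).1 = t j * w.1 := congrArg Prod.fst (ht j)
      simp
      linear_combination h1
    · show (P j).2 = ((⟨(P 0).1, (P 0).2⟩ : GaussianInt) + ⟨w.1, w.2⟩ * ((t j : ℤ) : GaussianInt)).im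
      have h1 : (P j).2 - (P 0).2 = t j * w.2 := congrArg Prod.snd (ht j)
      simp
      linear_combination h1
  · -- three congruent points
    exfalso
    refine hex (Or.inl ⟨P i, (e i).2, P j, (e j).2, P k, (e k).2, fun h => h1 (hP h),
      fun h => h2 (hP h), fun h => h3 (hP h), ?_, ?_⟩)
    · rw [hsub]; exact hfive _ h4
    · rw [hsub]; exact hfive _ h5
  · exfalso
    refine hex (Or.inr ⟨P (σ 0), P (σ 1) - P (σ 0), P (σ 2), P (σ 3) - P (σ 2), P (σ 4),
      set_five hrange σ _ _ _ _ _ 0 1 2 3 4 (by decide) rfl (by abel) rfl (by abel) rfl,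
      ?_, ?_, ?_, k, ?_⟩)
    · rw [hsub]; exact hfive _ h1
    · rw [hsub]; exact hfive _ h2
    · have : 2 • P (σ 4) - P (σ 0) - P (σ 2) = (2 * t (σ 4) - t (σ 0) - t (σ 2)) • w := by
        have e1 := hsub (σ 4) (σ 0)
        have e2 := hsub (σ 4) (σ 2)
        rw [show 2 * t (σ 4) - t (σ 0) - t (σ 2) = (t (σ 4) - t (σ 0)) + (t (σ 4) - t (σ 2)) by ring,
          add_smul, ← e1, ← e2, two_smul]
        abel
      rw [this]
      exact hfive _ h3
    · rcases h4 with ⟨a1, a2, a3, a4⟩ | ⟨a1, a2, a3, a4⟩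
      · left
        refine ⟨?_, ?_, ?_, ?_⟩
        · rw [hsub]; exact (htwo k _).mp a1
        · rw [hsub]; exact (htwo k _).mp a2
        · rw [show P (σ 2) + (P (σ 3) - P (σ 2)) - P (σ 0) = P (σ 3) - P (σ 0) by abel, hsub]
          exact (htwo k _).mp a3
        · rw [hsub]; exact fun h => a4 ((htwo k _).mpr h)
      · right
        refine ⟨?_, ?_, ?_, ?_⟩
        · rw [hsub]; exact (htwo k _).mp a1
        · rw [hsub]; exact (htwo k _).mp a2
        · rw [hsub]; exact (htwo k _).mp a3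
        · rw [hsub]; exact fun h => a4 ((htwo k _).mpr h)

/-- A set of five points of `ℤ × ℤ` tiles the lattice unless it is on a line and exceptional there,
or not on a line and in one of the five planar families; a set not on a line tiles with translates
of `S` and `-S`. -/
theorem result (S : Finset (ℤ × ℤ)) (hcard : S.card = 5) :
    (OnLine S → ¬ ExceptionalOnLine S → Tiles (S : Set (ℤ × ℤ))) ∧
    (¬ OnLine S → ¬ ExceptionalPlanar S → TilesPM (S : Set (ℤ × ℤ))) :=
  ⟨linear S hcard, planar S hcard⟩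

end Pool.Agent.Results.MP_dae7ec_co.OutsideExceptionalFamilies
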