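import Pool.Agent.Lib.MP_dae7ec_co.PowTile

set_option autoImplicit false

namespace Pool.Agent.Results.MP_dae7ec_co.PowerChain

/-- isometries of the integer lattice: distance-preserving bijections (squared Euclidean
distances) -/
def IsLatticeIsometry (g : ℤ × ℤ → ℤ × ℤ) : Prop :=
  Function.Bijective g ∧
    ∀ p q : ℤ × ℤ, ((g p).1 - (g q).1) ^ 2 + ((g p).2 - (g q).2) ^ 2
      = (p.1 - q.1) ^ 2 + (p.2 - q.2) ^ 2

/-- `S` tiles the whole lattice: some family of images of `S` under lattice isometries is pairwise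
disjoint with union the whole lattice. -/
def Tiles (S : Set (ℤ × ℤ)) : Prop :=
  ∃ (I : Type) (g : I → ℤ × ℤ → ℤ × ℤ),
    (∀ i, IsLatticeIsometry (g i)) ∧
    (∀ i j, i ≠ j → Disjoint (g i '' S) (g j '' S)) ∧
    (⋃ i, g i '' S) = Set.univ

/-- the linear form `x + c y` -/
def form (c : ℤ) (v : ℤ × ℤ) : ℤ := v.1 + c * v.2

open Pool.Agent.Lib.MP_dae7ec_co in
/-- from a tiling of the Gaussian integers by rotated copies to a tiling of `ℤ × ℤ` -/
theorem tiles_of_rotTiles (S : Finset GaussianInt) (h : RotTiles S) (A : Set (ℤ × ℤ))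
    (hA : A = (fun z : GaussianInt => ((z.re, z.im) : ℤ × ℤ)) '' (S : Set GaussianInt)) :
    Tiles A := by
  classical
  obtain ⟨P, hP⟩ := h
  -- exactly one
  have huniq : ∀ w : GaussianInt, ∃! q : Fin 4 × GaussianInt,
      q.2 ∈ S ∧ P q.1 (w - rot q.1 * q.2) = true := by
    intro w
    have h1 : ∑ q ∈ (Finset.univ : Finset (Fin 4)) ×ˢ S, (P q.1 (w - rot q.1 * q.2)).toNat = 1 := by
      rw [Finset.sum_product]
      exact hP w
    have h2 : (((Finset.univ : Finset (Fin 4)) ×ˢ S).filter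
        fun q => P q.1 (w - rot q.1 * q.2) = true).card = 1 := by
      rw [Finset.card_filter]
      refine Eq.trans ?_ h1
      refine Finset.sum_congr rfl fun q _ => ?_
      cases P q.1 (w - rot q.1 * q.2) <;> rfl
    obtain ⟨q, hq⟩ := Finset.card_eq_one.mp h2
    have hmem : ∀ q', (q'.2 ∈ S ∧ P q'.1 (w - rot q'.1 * q'.2) = true) ↔ q' = q := by
      intro q'
      have h3 : q' ∈ ({q} : Finset (Fin 4 × GaussianInt)) ↔ q' = q := Finset.mem_singleton
      rw [← h3, ← hq]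
      simp
    exact ⟨q, (hmem q).mpr rfl, fun q' hq' => (hmem q').mp hq'⟩
  let F : Fin 4 → GaussianInt → ℤ × ℤ → ℤ × ℤ := fun k b p =>
    ((rot k * ⟨p.1, p.2⟩ + b).re, (rot k * ⟨p.1, p.2⟩ + b).im)
  have hrot : ∀ k : Fin 4, rot k = 1 ∨ rot k = ⟨0, 1⟩ ∨ rot k = -1 ∨ rot k = ⟨0, -1⟩ := by
    intro k
    fin_cases k
    · exact Or.inl rot_zero
    · exact Or.inr (Or.inl rot_one)
    · exact Or.inr (Or.inr (Or.inl rot_two))
    · exact Or.inr (Or.inr (Or.inr rot_three))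
  have hF : ∀ k b, IsLatticeIsometry (F k b) := by
    intro k b
    have hd : ∀ p q : ℤ × ℤ, ((F k b p).1 - (F k b q).1) ^ 2 + ((F k b p).2 - (F k b q).2) ^ 2
        = (p.1 - q.1) ^ 2 + (p.2 - q.2) ^ 2 := by
      intro p q
      simp only [F, Zsqrtd.re_add, Zsqrtd.im_add, Zsqrtd.re_mul, Zsqrtd.im_mul]
      rcases hrot k with h | h | h | h <;> rw [h] <;> simp <;> ring
    refine ⟨⟨?_, ?_⟩, hd⟩
    · intro p q hpq
      have := hd p q
      rw [hpq] at this
      simp only [sub_self] at this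
      have h1 := sq_nonneg (p.1 - q.1)
      have h2 := sq_nonneg (p.2 - q.2)
      have h3 : (p.1 - q.1) ^ 2 = 0 := by omega
      have h4 : (p.2 - q.2) ^ 2 = 0 := by omega
      have h5 := pow_eq_zero_iff (two_ne_zero) |>.mp h3
      have h6 := pow_eq_zero_iff (two_ne_zero) |>.mp h4
      exact Prod.ext (by omega) (by omega)
    · rintro ⟨x, y⟩
      simp only [F, Zsqrtd.re_add, Zsqrtd.im_add, Zsqrtd.re_mul, Zsqrtd.im_mul]
      rcases hrot k with h | h | h | h <;> rw [h]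
      · exact ⟨(x - b.re, y - b.im), by simp⟩
      · exact ⟨(y - b.im, -(x - b.re)), by simp⟩
      · exact ⟨(-(x - b.re), -(y - b.im)), by simp⟩
      · exact ⟨(-(y - b.im), x - b.re), by simp⟩
  refine ⟨{q : Fin 4 × GaussianInt // P q.1 q.2 = true}, fun q => F q.1.1 q.1.2,
    fun q => hF _ _, ?_, ?_⟩
  · rintro ⟨⟨k, b⟩, hkb⟩ ⟨⟨k', b'⟩, hkb'⟩ hne
    rw [Set.disjoint_left]
    rintro w ⟨p, hp, hpw⟩ ⟨p', hp', hpw'⟩
    rw [hA] at hp hp'
    obtain ⟨s, hs, rfl⟩ := hp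
    obtain ⟨s', hs', rfl⟩ := hp'
    simp only [F] at hpw hpw' hkb hkb'
    have e1 : rot k * s + b = ⟨w.1, w.2⟩ := by
      rw [← hpw]
    have e2 : rot k' * s' + b' = ⟨w.1, w.2⟩ := by
      rw [← hpw']
    obtain ⟨q, -, hq⟩ := huniq ⟨w.1, w.2⟩
    have h1 := hq (k, s) ⟨hs, by rw [← e1]; simpa using hkb⟩
    have h2 := hq (k', s') ⟨hs', by rw [← e2]; simpa using hkb'⟩
    have h3 : k = k' := by
      have := h1.trans h2.symm
      exact (Prod.mk.inj this).1
    have h4 : s = s' := by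
      have := h1.trans h2.symm
      exact (Prod.mk.inj this).2
    subst h3 h4
    apply hne
    have : b = b' := by
      have := e1.trans e2.symm
      exact add_left_cancel this
    rw [Subtype.mk.injEq, this]
  · rw [Set.eq_univ_iff_forall]
    rintro ⟨x, y⟩
    obtain ⟨q, ⟨hq1, hq2⟩, -⟩ := huniq ⟨x, y⟩
    rw [Set.mem_iUnion]
    refine ⟨⟨(q.1, ⟨x, y⟩ - rot q.1 * q.2), hq2⟩, ?_⟩
    refine ⟨(q.2.re, q.2.im), ?_, ?_⟩
    · rw [hA]
      exact ⟨q.2, hq1, rfl⟩
    · simp only [F]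
      rw [show rot q.1 * (⟨q.2.re, q.2.im⟩ : GaussianInt) + (⟨x, y⟩ - rot q.1 * q.2)
        = (⟨x, y⟩ : GaussianInt) by
          rw [show (⟨q.2.re, q.2.im⟩ : GaussianInt) = q.2 from rfl]; ring]

open Pool.Agent.Lib.MP_dae7ec_co in
/-- five Gaussian integers whose rotated copies cover everything once are different -/
theorem inj_of_cover (t : Fin 5 → GaussianInt) (P : Fin 4 → GaussianInt → Bool)
    (h : ∀ w : GaussianInt, ∑ k : Fin 4, ∑ i : Fin 5, (P k (w - rot k * t i)).toNat = 1) :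
    Function.Injective t := by
  intro a b hab
  by_contra hne
  have hex : ∃ k z, P k z = true := by
    by_contra hcon
    push Not at hcon
    have h0 := h 0
    have : ∀ k z, (P k z).toNat = 0 := by
      intro k z
      have := hcon k z
      simp only [ne_eq, Bool.not_eq_true] at this
      rw [this]; rfl
    simp [this] at h0
  obtain ⟨k, z, hz⟩ := hex
  have h1 := h (z + rot k * t a)
  have h2 : ∑ i ∈ ({a, b} : Finset (Fin 5)), (P k (z + rot k * t a - rot k * t i)).toNat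
      ≤ ∑ i : Fin 5, (P k (z + rot k * t a - rot k * t i)).toNat :=
    Finset.sum_le_sum_of_subset (Finset.subset_univ _)
  rw [Finset.sum_pair hne, ← hab, add_sub_cancel_right, hz] at h2
  have h3 := Finset.single_le_sum
    (f := fun k' : Fin 4 => ∑ i : Fin 5, (P k' (z + rot k * t a - rot k' * t i)).toNat)
    (fun _ _ => Nat.zero_le _) (Finset.mem_univ k)
  simp only [Bool.toNat_true] at h2
  have h4 : ∑ i : Fin 5, (P k (z + rot k * t a - rot k * t i)).toNat ≤ 1 := h3.trans h1.le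
  omega

open Pool.Agent.Lib.MP_dae7ec_co Pool.Agent.Lib.MP_dae7ec_co.Pow in
/-- the general tiling -/
theorem general (M : ℕ) (h20 : 20 ∣ M) (h60 : 60 ≤ M) (p : Fin 5 → ℤ × ℤ)
    (a1 : ¬ (5 : ℤ) ∣ form 2 (p 1 - p 0)) (a2 : (5 : ℤ) ∣ form 2 (p 2 - p 0))
    (a3 : (5 : ℤ) ∣ form 2 (p 3 - p 0)) (a4 : (5 : ℤ) ∣ form 2 (p 4 - p 0))
    (b1 : IsCoprime (form M (p 1 - p 0)) ((M : ℤ) ^ 2 + 1))
    (b2 : (M : ℤ) ^ 2 + 1 ∣ form M (p 2 - p 0) - M * form M (p 1 - p 0))
    (b3 : (M : ℤ) ^ 2 + 1 ∣ form M (p 3 - p 0) - M ^ 2 * form M (p 1 - p 0))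
    (b4 : (M : ℤ) ^ 2 + 1 ∣ form M (p 4 - p 0) - M ^ 3 * form M (p 1 - p 0)) :
    Tiles (Set.range p) := by
  classical
  obtain ⟨q, rfl⟩ := h20
  obtain ⟨j, rfl⟩ : ∃ j, q = 3 + j := ⟨q - 3, by omega⟩
  rw [show 20 * (3 + j) = 60 + 20 * j by ring] at *
  have hloc : ∀ n ≤ (60 + 20 * j) * (60 + 20 * j), locOK (60 + 20 * j) (gj j) n = true :=
    fun n hn => loc_all hn
  have hM : 0 < 60 + 20 * j := by omega
  generalize hMdef : 60 + 20 * j = M at *
  clear hMdef h60
  -- the inverses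
  obtain ⟨u, u', hu⟩ := b1
  have hu1 : ((u : ℤ) : ZMod (M * M + 1)) * (form M (p 1 - p 0) : ℤ) = 1 := by
    have h0 := cast_N (M := M)
    have h1 := congrArg (Int.cast : ℤ → ZMod (M * M + 1)) hu
    push_cast at h1
    linear_combination h1 - (u' : ZMod (M * M + 1)) * h0
  have ha : ((form 2 (p 1 - p 0) : ℤ) : ZMod 5) ≠ 0 := by
    intro h
    rw [ZMod.intCast_zmod_eq_zero_iff_dvd] at h
    exact a1 h
  haveI : Fact (Nat.Prime 5) := ⟨by norm_num⟩
  let pos : GaussianInt →+ ZMod (M * M + 1) :=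
    { toFun := fun z => (u : ZMod (M * M + 1)) * ((z.re : ZMod (M * M + 1)) + M * z.im)
      map_zero' := by simp
      map_add' := fun x y => by
        simp only [Zsqrtd.re_add, Zsqrtd.im_add]; push_cast; ring }
  let lab : GaussianInt →+ ZMod 5 :=
    { toFun := fun z => ((form 2 (p 1 - p 0) : ℤ) : ZMod 5)⁻¹ * ((z.re : ZMod 5) + 2 * z.im)
      map_zero' := by simp
      map_add' := fun x y => by
        simp only [Zsqrtd.re_add, Zsqrtd.im_add]; push_cast; ring }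
  have hpos : ∀ z, pos (⟨0, 1⟩ * z) = (M : ZMod (M * M + 1)) * pos z := by
    intro z
    have h0 := cast_N (M := M)
    show (u : ZMod (M * M + 1)) * ((((⟨0, 1⟩ : GaussianInt) * z).re : ZMod (M * M + 1))
      + M * ((⟨0, 1⟩ : GaussianInt) * z).im)
      = M * ((u : ZMod (M * M + 1)) * ((z.re : ZMod (M * M + 1)) + M * z.im))
    simp only [Zsqrtd.re_mul, Zsqrtd.im_mul]
    push_cast
    linear_combination (-(u : ZMod (M * M + 1)) * z.im) * h0
  have h5 : (5 : ZMod 5) = 0 := rfl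
  have hlab : ∀ z, lab (⟨0, 1⟩ * z) = 2 * lab z := by
    intro z
    show ((form 2 (p 1 - p 0) : ℤ) : ZMod 5)⁻¹ * ((((⟨0, 1⟩ : GaussianInt) * z).re : ZMod 5)
      + 2 * ((⟨0, 1⟩ : GaussianInt) * z).im)
      = 2 * (((form 2 (p 1 - p 0) : ℤ) : ZMod 5)⁻¹ * ((z.re : ZMod 5) + 2 * z.im))
    simp only [Zsqrtd.re_mul, Zsqrtd.im_mul]
    push_cast
    linear_combination (-((form 2 (p 1 - p 0) : ℤ) : ZMod 5)⁻¹ * z.im) * h5
  let t : Fin 5 → GaussianInt := fun i => ⟨(p i - p 0).1, (p i - p 0).2⟩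
  have hposform : ∀ i, pos (t i) = (u : ZMod (M * M + 1)) * (form M (p i - p 0) : ℤ) := by
    intro i
    show (u : ZMod (M * M + 1)) * (((p i - p 0).1 : ZMod (M * M + 1)) + M * (p i - p 0).2) = _
    unfold form
    push_cast
    ring
  have hlabform : ∀ i, lab (t i) = ((form 2 (p 1 - p 0) : ℤ) : ZMod 5)⁻¹ * (form 2 (p i - p 0) : ℤ) := by
    intro i
    show ((form 2 (p 1 - p 0) : ℤ) : ZMod 5)⁻¹ * (((p i - p 0).1 : ZMod 5) + 2 * (p i - p 0).2) = _
    unfold form
    push_cast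
    ring
  have hdvd : ∀ x : ℤ, (M : ℤ) ^ 2 + 1 ∣ x → (x : ZMod (M * M + 1)) = 0 := by
    intro x hx
    rw [ZMod.intCast_zmod_eq_zero_iff_dvd]
    refine dvd_trans (dvd_of_eq ?_) hx
    push_cast; ring
  have e2 : pos (t 2) = (M : ZMod (M * M + 1)) := by
    rw [hposform]
    have := hdvd _ b2
    push_cast at this
    linear_combination (u : ZMod (M * M + 1)) * this + (M : ZMod (M * M + 1)) * hu1
  have e3 : pos (t 3) = (M : ZMod (M * M + 1)) ^ 2 := by
    rw [hposform]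
    have := hdvd _ b3
    push_cast at this
    linear_combination (u : ZMod (M * M + 1)) * this + (M : ZMod (M * M + 1)) ^ 2 * hu1
  have e4 : pos (t 4) = (M : ZMod (M * M + 1)) ^ 3 := by
    rw [hposform]
    have := hdvd _ b4
    push_cast at this
    linear_combination (u : ZMod (M * M + 1)) * this + (M : ZMod (M * M + 1)) ^ 3 * hu1
  have hz : ∀ i, (5 : ℤ) ∣ form 2 (p i - p 0) → lab (t i) = 0 := by
    intro i hi
    rw [hlabform, (ZMod.intCast_zmod_eq_zero_iff_dvd _ 5).mpr hi, mul_zero]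
  obtain ⟨P, hP⟩ := tiles_five M hM (gj j) hloc pos lab hpos hlab t
    (by rw [hposform, sub_self]; simp [form]) (by rw [hposform]; exact hu1) e2 e3 e4
    (by rw [hlabform, sub_self]; simp [form]) (by rw [hlabform]; exact inv_mul_cancel₀ ha)
    (hz 2 a2) (hz 3 a3) (hz 4 a4)
  have hinj := inj_of_cover t P hP
  have hT : RotTiles (Finset.univ.image t) := by
    refine ⟨P, fun w => ?_⟩
    rw [← hP w]
    refine Finset.sum_congr rfl fun k _ => ?_
    rw [Finset.sum_image (fun x _ y _ hxy => hinj hxy)]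
  refine tiles_of_rotTiles _ (hT.translate ⟨(p 0).1, (p 0).2⟩) _ ?_
  ext x
  simp only [Finset.coe_image, Finset.coe_univ, Set.image_univ, Set.mem_image, Set.mem_range,
    exists_exists_eq_and]
  constructor
  · rintro ⟨i, rfl⟩
    exact ⟨i, by simp [t]⟩
  · rintro ⟨i, rfl⟩
    exact ⟨i, by simp [t]⟩

/-- For every multiple `M` of twenty, `M ≥ 60`, the set `{0, 1, M, M², M³}` on the first axis tiles
the lattice, and so does every set of five points with the same images as this one, up to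
multiplication by a unit, under the forms `x + 2 y` modulo five and `x + M y` modulo `M ^ 2 + 1`,
the image modulo five of the second point being different from the common image of the others. -/
theorem result (M : ℕ) (h20 : 20 ∣ M) (h60 : 60 ≤ M) :
    Tiles {(0, 0), (1, 0), ((M : ℤ), 0), ((M : ℤ) ^ 2, 0), ((M : ℤ) ^ 3, 0)} ∧
    ∀ p : Fin 5 → ℤ × ℤ,
      ¬ (5 : ℤ) ∣ form 2 (p 1 - p 0) →
      (5 : ℤ) ∣ form 2 (p 2 - p 0) → (5 : ℤ) ∣ form 2 (p 3 - p 0) →
      (5 : ℤ) ∣ form 2 (p 4 - p 0) →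
      IsCoprime (form M (p 1 - p 0)) ((M : ℤ) ^ 2 + 1) →
      (M : ℤ) ^ 2 + 1 ∣ form M (p 2 - p 0) - M * form M (p 1 - p 0) →
      (M : ℤ) ^ 2 + 1 ∣ form M (p 3 - p 0) - M ^ 2 * form M (p 1 - p 0) →
      (M : ℤ) ^ 2 + 1 ∣ form M (p 4 - p 0) - M ^ 3 * form M (p 1 - p 0) →
      Tiles (Set.range p) := by
  refine ⟨?_, fun p => general M h20 h60 p⟩
  have h5 : (5 : ℤ) ∣ M := by
    have : (5 : ℕ) ∣ M := dvd_trans (by norm_num) h20
    exact_mod_cast this
  have h := general M h20 h60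
    ![(0, 0), (1, 0), ((M : ℤ), 0), ((M : ℤ) ^ 2, 0), ((M : ℤ) ^ 3, 0)]
    (by simp [form]) (by simpa [form] using h5)
    (by simpa [form] using dvd_pow h5 two_ne_zero)
    (by simpa [form] using dvd_pow h5 three_ne_zero)
    (by simpa [form] using isCoprime_one_left)
    (by simp [form]) (by simp [form]) (by simp [form])
  convert h using 1
  ext x
  simp only [Set.mem_insert_iff, Set.mem_singleton_iff, Set.mem_range]
  constructor
  · rintro (rfl | rfl | rfl | rfl | rfl)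
    · exact ⟨0, rfl⟩
    · exact ⟨1, rfl⟩
    · exact ⟨2, rfl⟩
    · exact ⟨3, rfl⟩
    · exact ⟨4, rfl⟩
  · rintro ⟨i, rfl⟩
    fin_cases i <;> simp

end Pool.Agent.Results.MP_dae7ec_co.PowerChain
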